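import Pool.Agent.Y890.MV.Base

/-! Taylor expansions in several complex variables. -/

set_option autoImplicit false

open Finset Filter Topology Metric

namespace Pool.Agent.Y710.MV

open Pool.Agent.Y120 (cm)

variable {X : Type} [Fintype X] [DecidableEq X]

/-- unit vector -/
noncomputable def ev (i : X) : X → ℂ := Pi.single i 1

/-- partial derivative -/
noncomputable def dI (i : X) (F : (X → ℂ) → ℂ) (x : X → ℂ) : ℂ :=
  fderiv ℂ F x (ev i)

theorem dI_analytic {i : X} {F : (X → ℂ) → ℂ} {c : X → ℂ} (h : AnalyticAt ℂ F c) :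
    AnalyticAt ℂ (dI i F) c :=
  ((ContinuousLinearMap.apply ℂ ℂ (ev i)).analyticAt _).comp h.fderiv

theorem dI_iter_analytic {i : X} {F : (X → ℂ) → ℂ} {c : X → ℂ} (h : AnalyticAt ℂ F c) (n : ℕ) :
    AnalyticAt ℂ ((dI i)^[n] F) c := by
  induction n with
  | zero => exact h
  | succ n ih =>
    rw [Function.iterate_succ_apply']
    exact dI_analytic ih

/-- Taylor coefficients in one coordinate -/
noncomputable def tci (i : X) (n : ℕ) (F : (X → ℂ) → ℂ) (x : X → ℂ) : ℂ :=
  (dI i)^[n] F x / (n.factorial : ℂ)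

theorem tci_analytic {i : X} {n : ℕ} {F : (X → ℂ) → ℂ} {c : X → ℂ} (h : AnalyticAt ℂ F c) :
    AnalyticAt ℂ (tci i n F) c :=
  (dI_iter_analytic h n).div analyticAt_const (by exact_mod_cast n.factorial_ne_zero)

theorem tci_dI (i : X) (n : ℕ) (F : (X → ℂ) → ℂ) (x : X → ℂ) :
    tci i n (dI i F) x = ((n : ℂ) + 1) * tci i (n + 1) F x := by
  unfold tci
  rw [Function.iterate_succ_apply]
  have h1 : ((n.factorial : ℕ) : ℂ) ≠ 0 := by exact_mod_cast n.factorial_ne_zero
  have h2 : ((n : ℂ) + 1) ≠ 0 := by exact_mod_cast Nat.succ_ne_zero n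
  rw [Nat.factorial_succ]
  push_cast
  field_simp

theorem norm_smul_ev (i : X) (x : ℂ) : ‖x • ev i‖ ≤ ‖x‖ := by
  rw [pi_norm_le_iff_of_nonneg (norm_nonneg _)]
  intro j
  rw [Pi.smul_apply, smul_eq_mul, norm_mul]
  unfold ev
  rcases eq_or_ne j i with rfl | h
  · rw [Pi.single_eq_same, norm_one, mul_one]
  · rw [Pi.single_eq_of_ne h, norm_zero, mul_zero]; exact norm_nonneg _

/-- Taylor's formula in one coordinate -/
theorem tay1 (i : X) (m : ℕ) : ∀ {f : (X → ℂ) → ℂ} {c : X → ℂ}, AnalyticAt ℂ f c →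
    ∃ C ρ : ℝ, 0 ≤ C ∧ 0 < ρ ∧ ∀ p, ‖p - c‖ ≤ ρ → ∀ w : ℂ, ‖w‖ ≤ ρ →
      ‖f (p + w • ev i) - ∑ n ∈ range m, tci i n f p * w ^ n‖ ≤ C * ‖w‖ ^ m := by
  have hsm : ∀ x : ℂ, ‖x • ev i‖ ≤ ‖x‖ := norm_smul_ev i
  induction m with
  | zero =>
    intro f c hf
    have h1 : ∀ᶠ x in 𝓝 c, ‖f x‖ < ‖f c‖ + 1 :=
      hf.continuousAt.norm.eventually_lt continuousAt_const (by simp)
    obtain ⟨ρ, hρ, hb⟩ := Metric.eventually_nhds_iff.1 h1
    refine ⟨‖f c‖ + 1, ρ / 3, by positivity, by positivity, ?_⟩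
    intro p hp w hw
    simp only [range_zero, sum_empty, sub_zero, pow_zero, mul_one]
    refine (hb ?_).le
    rw [dist_eq_norm]
    rw [add_sub_right_comm]
    calc ‖(p - c) + w • ev i‖ ≤ ‖p - c‖ + ‖w • ev i‖ := norm_add_le _ _
      _ ≤ ρ / 3 + ρ / 3 := add_le_add hp ((hsm w).trans hw)
      _ < ρ := by linarith
  | succ m ih =>
    intro f c hf
    obtain ⟨C, ρ1, hC, hρ1, hb⟩ := ih (dI_analytic (i := i) hf)
    have h1 : ∀ᶠ x in 𝓝 c, AnalyticAt ℂ f x := hf.eventually_analyticAt
    obtain ⟨ρ2, hρ2, hb2⟩ := Metric.eventually_nhds_iff.1 h1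
    refine ⟨C, min ρ1 (ρ2 / 3), hC, by positivity, ?_⟩
    intro p hp w hw
    have hp1 : ‖p - c‖ ≤ ρ1 := hp.trans (min_le_left _ _)
    have hw1 : ‖w‖ ≤ ρ1 := hw.trans (min_le_left _ _)
    have hp2 : ‖p - c‖ ≤ ρ2 / 3 := hp.trans (min_le_right _ _)
    have hw2 : ‖w‖ ≤ ρ2 / 3 := hw.trans (min_le_right _ _)
    set E : ℂ → ℂ := fun w => f (p + w • ev i) -
      ∑ n ∈ range (m + 1), tci i n f p * w ^ n with hE
    set E' : ℂ → ℂ := fun w => dI i f (p + w • ev i) -
      ∑ n ∈ range m, tci i n (dI i f) p * w ^ n with hE'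
    have hder : ∀ x ∈ closedBall (0 : ℂ) ‖w‖, HasDerivWithinAt E (E' x) (closedBall (0 : ℂ) ‖w‖) x := by
      intro x hx
      rw [mem_closedBall, dist_zero_right] at hx
      refine HasDerivAt.hasDerivWithinAt ?_
      have h2 : AnalyticAt ℂ f (p + x • ev i) := by
        refine hb2 ?_
        rw [dist_eq_norm]
        rw [add_sub_right_comm]
        calc ‖(p - c) + x • ev i‖ ≤ ‖p - c‖ + ‖x • ev i‖ := norm_add_le _ _
          _ ≤ ρ2 / 3 + ρ2 / 3 := add_le_add hp2 ((hsm x).trans (hx.trans hw2))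
          _ < ρ2 := by linarith
      have h3 : HasDerivAt (fun y : ℂ => f (p + y • ev i))
          (dI i f (p + x • ev i)) x := by
        have h30 : HasDerivAt (fun y : ℂ => p + y • ev i)
            (ev i) x := by
          have := ((hasDerivAt_id x).smul_const (ev i)).const_add p
          rwa [one_smul] at this
        exact h2.differentiableAt.hasFDerivAt.comp_hasDerivAt x h30
      have h4 : HasDerivAt (fun y : ℂ => ∑ n ∈ range (m + 1), tci i n f p * y ^ n)
          (∑ n ∈ range m, tci i n (dI i f) p * x ^ n) x := by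
        have h5 : ∀ n ∈ range (m + 1), HasDerivAt (fun y : ℂ => tci i n f p * y ^ n)
            (tci i n f p * ((n : ℂ) * x ^ (n - 1))) x := fun n _ => (hasDerivAt_pow n x).const_mul _
        have h6 := HasDerivAt.fun_sum h5
        refine h6.congr_deriv ?_
        rw [sum_range_succ']
        simp only [Nat.cast_zero, zero_mul, mul_zero, add_zero]
        refine sum_congr rfl fun n _ => ?_
        rw [tci_dI]
        rw [Nat.add_sub_cancel]
        push_cast
        ring
      exact h3.sub h4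
    have hbound : ∀ x ∈ closedBall (0 : ℂ) ‖w‖, ‖E' x‖ ≤ C * ‖w‖ ^ m := by
      intro x hx
      rw [mem_closedBall, dist_zero_right] at hx
      refine (hb p hp1 x (hx.trans hw1)).trans ?_
      gcongr
    have h7 := Convex.norm_image_sub_le_of_norm_hasDerivWithin_le hder hbound (convex_closedBall _ _)
      (x := 0) (y := w) (by simp) (by simp)
    have h8 : E 0 = 0 := by
      simp only [hE, zero_smul, add_zero]
      rw [sum_range_succ']
      simp [tci]
    rw [h8, sub_zero, sub_zero] at h7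
    refine h7.trans (le_of_eq ?_)
    rw [pow_succ]
    ring

/-- Taylor coefficients in the coordinates of a list -/
noncomputable def tcL : List X → ((X → ℂ) → ℂ) → (X → ℕ) → (X → ℂ) → ℂ
  | [], F, _ => F
  | i :: l, F, α => tcL l (tci i (α i) F) α

theorem tcL_congr (l : List X) : ∀ (F : (X → ℂ) → ℂ) {α β : X → ℕ}, (∀ j ∈ l, α j = β j) →
    tcL l F α = tcL l F β := by
  induction l with
  | nil => intro F α β _; rfl
  | cons i l ih =>
    intro F α β h
    show tcL l (tci i (α i) F) α = tcL l (tci i (β i) F) β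
    rw [h i List.mem_cons_self]
    exact ih _ fun j hj => h j (List.mem_cons_of_mem _ hj)

theorem tcL_analytic (l : List X) : ∀ {F : (X → ℂ) → ℂ} {c : X → ℂ} (α : X → ℕ), AnalyticAt ℂ F c →
    AnalyticAt ℂ (tcL l F α) c := by
  induction l with
  | nil => intro F c α h; exact h
  | cons i l ih =>
    intro F c α h
    exact ih α (tci_analytic h)

/-- exponents in a box, zero outside of the list -/
def Bx (l : List X) (P : ℕ) : Finset (X → ℕ) :=
  Fintype.piFinset fun j => if j ∈ l then range P else {0}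

theorem mem_Bx {l : List X} {P : ℕ} {α : X → ℕ} :
    α ∈ Bx l P ↔ ∀ j, (j ∈ l → α j < P) ∧ (j ∉ l → α j = 0) := by
  unfold Bx
  rw [Fintype.mem_piFinset]
  refine forall_congr' fun j => ?_
  split_ifs with h
  · simp [h]
  · simp [h]

theorem sum_Bx {i : X} {l : List X} (hi : i ∉ l) (P : ℕ) (G : (X → ℕ) → ℂ) :
    ∑ α ∈ Bx (i :: l) P, G α = ∑ n ∈ range P, ∑ α ∈ Bx l P, G (Function.update α i n) := by
  rw [← sum_product']
  refine sum_nbij' (fun α => (α i, Function.update α i 0)) (fun p => Function.update p.2 i p.1)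
    ?_ ?_ ?_ ?_ ?_
  · intro α hα
    rw [mem_Bx] at hα
    rw [mem_product, mem_range, mem_Bx]
    refine ⟨(hα i).1 List.mem_cons_self, fun j => ⟨fun hj => ?_, fun hj => ?_⟩⟩
    · have hji : j ≠ i := fun h => hi (h ▸ hj)
      show Function.update α i 0 j < P
      rw [Function.update_of_ne hji]
      exact (hα j).1 (List.mem_cons_of_mem _ hj)
    · show Function.update α i 0 j = 0
      rcases eq_or_ne j i with rfl | hji
      · rw [Function.update_self]
      · rw [Function.update_of_ne hji]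
        exact (hα j).2 fun h => (List.mem_cons.1 h).elim hji hj
  · rintro ⟨n, α⟩ h
    rw [mem_product, mem_range, mem_Bx] at h
    rw [mem_Bx]
    intro j
    rcases eq_or_ne j i with rfl | hji
    · refine ⟨fun _ => ?_, fun h' => absurd List.mem_cons_self h'⟩
      show Function.update α j n j < P
      rw [Function.update_self]
      exact h.1
    · show (_ → Function.update α i n j < P) ∧ (_ → Function.update α i n j = 0)
      rw [Function.update_of_ne hji]
      exact ⟨fun hj => (h.2 j).1 ((List.mem_cons.1 hj).resolve_left hji),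
        fun hj => (h.2 j).2 fun hj' => hj (List.mem_cons_of_mem _ hj')⟩
  · intro α _
    show Function.update (Function.update α i 0) i (α i) = α
    rw [Function.update_idem, Function.update_eq_self]
  · rintro ⟨n, α⟩ h
    rw [mem_product, mem_range, mem_Bx] at h
    show (Function.update α i n i, Function.update (Function.update α i n) i 0) = (n, α)
    rw [Function.update_self, Function.update_idem]
    have h0 : α i = 0 := (h.2 i).2 hi
    rw [← h0, Function.update_eq_self]
  · intro α _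
    show G α = G (Function.update (Function.update α i 0) i (α i))
    rw [Function.update_idem, Function.update_eq_self]

theorem norm_update_le (w : X → ℂ) (i : X) : ‖Function.update w i 0‖ ≤ ‖w‖ := by
  rw [pi_norm_le_iff_of_nonneg (norm_nonneg _)]
  intro j
  rcases eq_or_ne j i with rfl | h
  · rw [Function.update_self, norm_zero]; exact norm_nonneg _
  · rw [Function.update_of_ne h]; exact norm_le_pi_norm _ _

theorem cm_update (w : X → ℂ) (i : X) (α : X → ℕ) (n : ℕ) (h : α i = 0) :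
    cm w (Function.update α i n) = cm (Function.update w i 0) α * w i ^ n := by
  unfold cm
  rw [← mul_prod_erase univ _ (mem_univ i), ← mul_prod_erase univ _ (mem_univ i),
    Function.update_self, Function.update_self, h, pow_zero, one_mul, mul_comm]
  congr 1
  refine prod_congr rfl fun j hj => ?_
  rw [Function.update_of_ne (ne_of_mem_erase hj), Function.update_of_ne (ne_of_mem_erase hj)]

theorem exists_min_pos (ρ : ℕ → ℝ) (hρ : ∀ n, 0 < ρ n) (P : ℕ) : ∃ r : ℝ, 0 < r ∧ ∀ n < P, r ≤ ρ n := by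
  induction P with
  | zero => exact ⟨1, one_pos, fun n h => absurd h (Nat.not_lt_zero _)⟩
  | succ P ih =>
    obtain ⟨r, hr, h⟩ := ih
    refine ⟨min r (ρ P), lt_min hr (hρ P), fun n hn => ?_⟩
    rcases Nat.lt_succ_iff_lt_or_eq.1 hn with h' | rfl
    · exact (min_le_left _ _).trans (h n h')
    · exact min_le_right _ _

theorem tayL (l : List X) (P : ℕ) : l.Nodup → ∀ {F : (X → ℂ) → ℂ} {c : X → ℂ}, AnalyticAt ℂ F c →
    ∃ C ρ : ℝ, 0 ≤ C ∧ 0 < ρ ∧ ∀ x, ‖x - c‖ ≤ ρ → ∀ w : X → ℂ, ‖w‖ ≤ ρ → (∀ j, j ∉ l → w j = 0) →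
      ‖F (x + w) - ∑ α ∈ Bx l P, tcL l F α x * cm w α‖ ≤ C * ‖w‖ ^ P := by
  induction l with
  | nil =>
    intro _ F c _
    refine ⟨0, 1, le_rfl, one_pos, fun x _ w _ hw => ?_⟩
    have hw0 : w = 0 := funext fun j => hw j List.not_mem_nil
    have hB : Bx ([] : List X) P = {fun _ => 0} := by
      ext α
      rw [mem_Bx, mem_singleton]
      constructor
      · intro h
        funext j
        exact (h j).2 List.not_mem_nil
      · rintro rfl j
        exact ⟨fun h => absurd h List.not_mem_nil, fun _ => rfl⟩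
    rw [hB, sum_singleton, hw0, add_zero]
    have : cm (0 : X → ℂ) (fun _ => 0) = 1 := by
      unfold cm
      simp
    rw [this, mul_one]
    show ‖F x - F x‖ ≤ _
    rw [sub_self, norm_zero, zero_mul]
  | cons i l ih =>
    intro hnd F c hF
    have hi : i ∉ l := (List.nodup_cons.1 hnd).1
    obtain ⟨C1, ρ1, hC1, hρ1, h1⟩ := tay1 i P hF
    have h2 : ∀ n : ℕ, ∃ C ρ : ℝ, 0 ≤ C ∧ 0 < ρ ∧ ∀ x, ‖x - c‖ ≤ ρ → ∀ w : X → ℂ, ‖w‖ ≤ ρ →
        (∀ j, j ∉ l → w j = 0) →
      ‖tci i n F (x + w) - ∑ α ∈ Bx l P, tcL l (tci i n F) α x * cm w α‖ ≤ C * ‖w‖ ^ P :=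
      fun n => ih (List.nodup_cons.1 hnd).2 (tci_analytic hF)
    choose C2 ρ2 hC2 hρ2 h2 using h2
    obtain ⟨r, hr, hr2⟩ := exists_min_pos ρ2 hρ2 P
    refine ⟨C1 + ∑ n ∈ range P, C2 n, min (min (ρ1 / 2) r) 1,
      add_nonneg hC1 (sum_nonneg fun n _ => hC2 n), by positivity, fun x hx w hw hwl => ?_⟩
    have hx1 : ‖x - c‖ ≤ ρ1 / 2 := hx.trans ((min_le_left _ _).trans (min_le_left _ _))
    have hx2 : ‖x - c‖ ≤ r := hx.trans ((min_le_left _ _).trans (min_le_right _ _))
    have hw1 : ‖w‖ ≤ ρ1 / 2 := hw.trans ((min_le_left _ _).trans (min_le_left _ _))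
    have hw2 : ‖w‖ ≤ r := hw.trans ((min_le_left _ _).trans (min_le_right _ _))
    have hw3 : ‖w‖ ≤ 1 := hw.trans (min_le_right _ _)
    set w' : X → ℂ := Function.update w i 0 with hw'
    have hw'n : ‖w'‖ ≤ ‖w‖ := norm_update_le w i
    have hwi : ‖w i‖ ≤ ‖w‖ := norm_le_pi_norm _ _
    have hsplit : x + w = (x + w') + w i • ev i := by
      funext j
      simp only [Pi.add_apply, Pi.smul_apply, smul_eq_mul, ev]
      rcases eq_or_ne j i with rfl | h
      · rw [hw', Function.update_self, Pi.single_eq_same, mul_one, add_zero]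
      · rw [hw', Function.update_of_ne h, Pi.single_eq_of_ne h, mul_zero, add_zero]
    have e1 := h1 (x + w') (by
      rw [add_sub_right_comm]
      calc ‖(x - c) + w'‖ ≤ ‖x - c‖ + ‖w'‖ := norm_add_le _ _
        _ ≤ ρ1 / 2 + ρ1 / 2 := add_le_add hx1 (hw'n.trans hw1)
        _ = ρ1 := by ring) (w i) (hwi.trans (hw1.trans (by linarith)))
    rw [← hsplit] at e1
    have e2 : ∀ n ∈ range P, ‖tci i n F (x + w') -
        ∑ α ∈ Bx l P, tcL l (tci i n F) α x * cm w' α‖ ≤ C2 n * ‖w‖ ^ P := by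
      intro n hn
      refine (h2 n x (hx2.trans (hr2 n (mem_range.1 hn))) w' (hw'n.trans (hw2.trans
        (hr2 n (mem_range.1 hn)))) ?_).trans ?_
      · intro j hj
        rcases eq_or_ne j i with rfl | h
        · rw [hw', Function.update_self]
        · rw [hw', Function.update_of_ne h]
          exact hwl j fun h' => (List.mem_cons.1 h').elim h hj
      · exact mul_le_mul_of_nonneg_left (pow_le_pow_left₀ (norm_nonneg _) hw'n _) (hC2 n)
    have e3 : ∑ α ∈ Bx (i :: l) P, tcL (i :: l) F α x * cm w α =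
        ∑ n ∈ range P, (∑ α ∈ Bx l P, tcL l (tci i n F) α x * cm w' α) * w i ^ n := by
      rw [sum_Bx hi]
      refine sum_congr rfl fun n _ => ?_
      rw [sum_mul]
      refine sum_congr rfl fun α hα => ?_
      have h0 : α i = 0 := ((mem_Bx.1 hα) i).2 hi
      rw [cm_update w i α n h0]
      have h3 : tcL (i :: l) F (Function.update α i n) = tcL l (tci i n F) α := by
        show tcL l (tci i (Function.update α i n i) F) (Function.update α i n) = _
        rw [Function.update_self]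
        refine tcL_congr l _ fun j hj => ?_
        have hji : j ≠ i := fun h => hi (by rw [← h]; exact hj)
        exact Function.update_of_ne hji _ _
      rw [h3]
      ring
    rw [e3]
    have e4 : ‖∑ n ∈ range P, tci i n F (x + w') * w i ^ n -
        ∑ n ∈ range P, (∑ α ∈ Bx l P, tcL l (tci i n F) α x * cm w' α) * w i ^ n‖ ≤
        (∑ n ∈ range P, C2 n) * ‖w‖ ^ P := by
      rw [← sum_sub_distrib, sum_mul]
      refine norm_sum_le_of_le _ fun n hn => ?_
      rw [← sub_mul, norm_mul, norm_pow]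
      refine (mul_le_of_le_one_right (norm_nonneg _) ?_).trans (e2 n hn)
      exact pow_le_one₀ (norm_nonneg _) (hwi.trans hw3)
    calc ‖F (x + w) - ∑ n ∈ range P, (∑ α ∈ Bx l P, tcL l (tci i n F) α x * cm w' α) * w i ^ n‖
        = ‖(F (x + w) - ∑ n ∈ range P, tci i n F (x + w') * w i ^ n) +
          (∑ n ∈ range P, tci i n F (x + w') * w i ^ n -
            ∑ n ∈ range P, (∑ α ∈ Bx l P, tcL l (tci i n F) α x * cm w' α) * w i ^ n)‖ := by
          congr 1; ring
      _ ≤ C1 * ‖w i‖ ^ P + (∑ n ∈ range P, C2 n) * ‖w‖ ^ P := (norm_add_le _ _).trans (add_le_add e1 e4)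
      _ ≤ C1 * ‖w‖ ^ P + (∑ n ∈ range P, C2 n) * ‖w‖ ^ P := by gcongr
      _ = (C1 + ∑ n ∈ range P, C2 n) * ‖w‖ ^ P := by ring

/-- an analytic function which vanishes to infinite order is zero -/
theorem flat {F : (X → ℂ) → ℂ} {c : X → ℂ} (hF : AnalyticAt ℂ F c)
    (h : ∀ P : ℕ, ∃ C ρ : ℝ, 0 < ρ ∧ ∀ w : X → ℂ, ‖w‖ ≤ ρ → ‖F (c + w)‖ ≤ C * ‖w‖ ^ P) :
    ∀ᶠ x in 𝓝 c, F x = 0 := by
  obtain ⟨p, hp⟩ := hF
  have hO : ∀ P : ℕ, (fun y : X → ℂ => F (c + y)) =O[𝓝 0] fun y => ‖y‖ ^ P := by
    intro P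
    obtain ⟨C, ρ, hρ, hC⟩ := h P
    refine Asymptotics.IsBigO.of_bound C ?_
    filter_upwards [Metric.ball_mem_nhds (0 : X → ℂ) hρ] with y hy
    rw [mem_ball_zero_iff] at hy
    rw [norm_pow, norm_norm]
    exact hC y hy.le
  have key : ∀ n : ℕ, ∀ y : X → ℂ, p n (fun _ => y) = 0 := by
    intro n
    induction n using Nat.strong_induction_on with
    | _ n ih =>
      have h1 := hp.isBigO_sub_partialSum_pow (n + 1)
      have h2 := (hO (n + 1)).sub h1
      refine Asymptotics.IsBigO.continuousMultilinearMap_apply_eq_zero (h2.congr_left fun y => ?_)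
      rw [sub_sub_cancel]
      unfold FormalMultilinearSeries.partialSum
      rw [sum_range_succ, sum_eq_zero (fun k hk => ih k (mem_range.1 hk) y), zero_add]
  have h3 : ∀ᶠ y in 𝓝 (0 : X → ℂ), F (c + y) = 0 := by
    filter_upwards [hp.eventually_hasSum] with y hy
    have h4 : (fun n => p n fun _ => y) = fun _ => 0 := funext fun n => key n y
    rw [h4] at hy
    exact hy.unique hasSum_zero
  have h5 : Tendsto (fun x : X → ℂ => x - c) (𝓝 c) (𝓝 0) := by
    have : ContinuousAt (fun x : X → ℂ => x - c) c := by fun_prop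
    simpa [ContinuousAt] using this
  filter_upwards [h5.eventually h3] with x hx
  rwa [add_sub_cancel] at hx

theorem sum_fin (P : ℕ) (G : (X → ℕ) → ℂ) :
    ∑ p : X → Fin P, G (fun i => (p i : ℕ)) = ∑ α ∈ Bx (univ : Finset X).toList P, G α := by
  refine sum_bij (fun p _ => fun i => (p i : ℕ)) ?_ ?_ ?_ ?_
  · intro p _
    rw [mem_Bx]
    exact fun j => ⟨fun _ => (p j).2, fun h => absurd (mem_toList.2 (mem_univ j)) h⟩
  · intro p _ q _ h
    funext i
    exact Fin.ext (congrFun h i)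
  · intro α hα
    rw [mem_Bx] at hα
    exact ⟨fun i => ⟨α i, (hα i).1 (mem_toList.2 (mem_univ i))⟩, mem_univ _, rfl⟩
  · intro p _
    rfl

theorem t : Pool.Agent.Y890.MV.StmTaylor := by
  intro X _ _
  refine ⟨fun F α => tcL (univ : Finset X).toList F α, ?_, ?_, ?_⟩
  · intro F c α hF
    exact (tcL_analytic _ α hF).continuousAt
  · intro F c P hF
    obtain ⟨C, ρ, hC, hρ, h⟩ := tayL (univ : Finset X).toList P (nodup_toList _) hF
    refine ⟨C, ρ, hC, hρ, fun x hx w hw => ?_⟩
    have h1 := h x hx w hw fun j hj => absurd (mem_toList.2 (mem_univ j)) hj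
    rw [← sum_fin P (fun α => tcL (univ : Finset X).toList F α x * cm w α)] at h1
    exact h1
  · intro F c hF h
    exact flat hF h

end Pool.Agent.Y710.MV
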